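import Mathlib

set_option autoImplicit false
open Filter hiding mk
open Real Asymptotics Topology

namespace Pool.Agent.H.MP_e2537c_al

/-- analytic lifts of circle diffeomorphisms -/
def G : Subgroup (ℝ ≃o ℝ) where
  carrier := {f | (∀ x, AnalyticAt ℝ f x) ∧ (∀ x, AnalyticAt ℝ f.symm x) ∧
    ∀ x, f (x + 2 * π) = f x + 2 * π}
  mul_mem' := by
    rintro f g ⟨hf1, hf2, hf3⟩ ⟨hg1, hg2, hg3⟩
    refine ⟨fun x => (hf1 _).comp (hg1 x), fun x => (hg2 _).comp (hf2 x), fun x => ?_⟩
    change f (g (x + 2 * π)) = f (g x) + 2 * π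
    rw [hg3, hf3]
  one_mem' := ⟨fun x => analyticAt_id, fun x => analyticAt_id, fun x => rfl⟩
  inv_mem' := by
    rintro f ⟨hf1, hf2, hf3⟩
    refine ⟨hf2, hf1, fun x => ?_⟩
    change f.symm (x + 2 * π) = f.symm x + 2 * π
    apply f.injective
    rw [hf3]; simp

lemma mul_ap (f g : ℝ ≃o ℝ) (x : ℝ) : (f * g) x = f (g x) := rfl
lemma one_ap (x : ℝ) : (1 : ℝ ≃o ℝ) x = x := rfl
lemma inv_ap (f : ℝ ≃o ℝ) (x : ℝ) : f⁻¹ (f x) = x := f.symm_apply_apply x
lemma ap_inv (f : ℝ ≃o ℝ) (x : ℝ) : f (f⁻¹ x) = x := f.apply_symm_apply x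

lemma per_int {f : ℝ ≃o ℝ} (hf : f ∈ G) (x : ℝ) (m : ℤ) :
    f (x + m * (2 * π)) = f x + m * (2 * π) := by
  have h : Function.Periodic (fun x => f x - x) (2 * π) := by
    intro x; simp only; rw [hf.2.2]; ring
  have := h.int_mul m x
  linarith

lemma exp_congr {f : ℝ ≃o ℝ} (hf : f ∈ G) {x y : ℝ} (h : Circle.exp x = Circle.exp y) :
    Circle.exp (f x) = Circle.exp (f y) := by
  obtain ⟨m, rfl⟩ := Circle.exp_eq_exp.1 h
  exact Circle.exp_eq_exp.2 ⟨m, per_int hf y m⟩

lemma exp_iff {f : ℝ ≃o ℝ} (hf : f ∈ G) {x y : ℝ} :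
    Circle.exp (f x) = Circle.exp (f y) ↔ Circle.exp x = Circle.exp y := by
  refine ⟨fun h => ?_, exp_congr hf⟩
  have := exp_congr (G.inv_mem hf) h
  rwa [inv_ap, inv_ap] at this

lemma deriv_ne {f : ℝ ≃o ℝ} (hf : f ∈ G) (x : ℝ) : deriv f x ≠ 0 := by
  intro h
  have h1 : HasDerivAt (fun y => f.symm (f y)) (deriv f.symm (f x) * deriv f x) x :=
    (hf.2.1 (f x)).differentiableAt.hasDerivAt.comp x (hf.1 x).differentiableAt.hasDerivAt
  simp only [OrderIso.symm_apply_apply, h, mul_zero] at h1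
  have := h1.unique (hasDerivAt_id' x)
  simp at this

lemma taylor2 {f : ℝ → ℝ} {x : ℝ} (hf : AnalyticAt ℝ f x) :
    (fun y => f y - f x - deriv f x * (y - x)) =O[𝓝 x] (fun y => (y - x) ^ 2) := by
  obtain ⟨p, hp⟩ := hf
  have h1 : DifferentiableAt ℝ (dslope f x) x :=
    (hp.has_fpower_series_dslope_fslope.analyticAt).differentiableAt
  have h2 := h1.isBigO_sub
  have h3 := (isBigO_refl (fun y : ℝ => y - x) (𝓝 x)).mul h2
  refine (h3.congr_left fun y => ?_).congr_right fun y => by ring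
  have := sub_smul_dslope f x y
  rw [dslope_same, smul_eq_mul] at *
  rw [mul_sub, this]; ring

lemma fix_countable {f g : ℝ → ℝ} (hf : ∀ x, AnalyticAt ℝ f x) (hg : ∀ x, AnalyticAt ℝ g x)
    (hne : f ≠ g) : {x | f x = g x}.Countable := by
  have : DiscreteTopology {x | f x = g x} := by
    rw [discreteTopology_subtype_iff]
    intro x _
    by_contra hb
    apply hne
    refine AnalyticOnNhd.eq_of_frequently_eq (fun x _ => hf x) (fun x _ => hg x) (z₀ := x) ?_
    exact frequently_iff_neBot.2 ⟨hb⟩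
  exact TopologicalSpace.separableSpace_iff_countable.1 inferInstance

/-- integer multiples of the full turn -/
def Ctr (f : ℝ ≃o ℝ) : Prop := ∃ m : ℤ, ∀ x, f x = x + m * (2 * π)

lemma fix_exp_countable {f : ℝ ≃o ℝ} (hf : f ∈ G) (hc : ¬ Ctr f) :
    {x | Circle.exp (f x) = Circle.exp x}.Countable := by
  have : {x | Circle.exp (f x) = Circle.exp x} = ⋃ m : ℤ, {x | f x = x + m * (2 * π)} := by
    ext x; simp [Circle.exp_eq_exp]
  rw [this]
  refine Set.countable_iUnion fun m => fix_countable hf.1 (fun x => by fun_prop) ?_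
  intro h
  exact hc ⟨m, fun x => congrFun h x⟩

lemma pert (u : ℝ → ℝ) (hu : ∀ x, AnalyticAt ℝ u x) (hp : ∀ x, u (x + 2 * π) = u x)
    (hl : ∀ x y, |u x - u y| ≤ 1 / 2 * |x - y|) : ∃ f ∈ G, ∀ x, f x = x + u x := by
  have hm : ∀ x y, x ≤ y → 1 / 2 * (y - x) ≤ (y + u y) - (x + u x) := by
    intro x y hxy
    have := hl x y
    rw [abs_sub_comm x y, abs_of_nonneg (sub_nonneg.2 hxy)] at this
    have := le_abs_self (u x - u y)
    linarith
  have hs : StrictMono (fun x => x + u x) := by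
    intro x y hxy
    have := hm x y hxy.le
    simp only; linarith
  have ha : ∀ x, AnalyticAt ℝ (fun x => x + u x) x := fun x => analyticAt_id.add (hu x)
  have hc : Continuous (fun x => x + u x) :=
    continuous_iff_continuousAt.2 fun x => (ha x).continuousAt
  have hsurj : Function.Surjective (fun x => x + u x) := by
    refine hc.surjective ?_ ?_
    · refine tendsto_atTop_mono' atTop (f₁ := fun x => 1 / 2 * x + u 0) ?_ ?_
      · filter_upwards [eventually_ge_atTop 0] with x hx
        have := hm 0 x hx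
        linarith
      · exact tendsto_atTop_add_const_right _ _ (tendsto_id.const_mul_atTop (by norm_num))
    · refine tendsto_atBot_mono' atBot (f₁ := fun x => 1 / 2 * x + u 0) ?_ ?_
      · filter_upwards [eventually_le_atBot 0] with x hx
        have := hm x 0 hx
        linarith
      · exact tendsto_atBot_add_const_right _ _ (tendsto_id.const_mul_atBot (by norm_num))
  let f : ℝ ≃o ℝ := hs.orderIsoOfSurjective _ hsurj
  have hf : ∀ x, f x = x + u x := fun x => rfl
  refine ⟨f, ⟨ha, fun y => ?_, fun x => ?_⟩, hf⟩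
  · have hd : deriv u (f.symm y) ≠ -1 := by
      have hl' : LipschitzWith (1 / 2) u := by
        refine LipschitzWith.of_dist_le_mul fun a b => ?_
        simpa [Real.dist_eq] using hl a b
      have := norm_deriv_le_of_lipschitz (𝕜 := ℝ) (x₀ := f.symm y) hl'
      intro h
      rw [h] at this
      norm_num at this
    have hd' : 1 + deriv u (f.symm y) ≠ 0 := fun h => hd (by linarith)
    have h1 : HasDerivAt f (1 + deriv u (f.symm y)) (f.symm y) :=
      (hasDerivAt_id' _).add (hu _).differentiableAt.hasDerivAt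
    have := f.toHomeomorph.toOpenPartialHomeomorph.analyticAt_symm (a := y)
      (i := ContinuousLinearEquiv.unitsEquivAut ℝ (Units.mk0 _ hd')) (by simp) (ha _) ?_
    · exact this
    · have h2 := h1.hasFDerivAt.fderiv
      change fderiv ℝ f (f.symm y) = _
      rw [h2]
      ext; simp
  · rw [hf, hf, hp]; ring

lemma per_lip (u : ℝ → ℝ) (hu : ∀ x, AnalyticAt ℝ u x) (hp : ∀ x, u (x + 2 * π) = u x) :
    ∃ K : ℝ, 0 < K ∧ (∀ x, |u x| ≤ K) ∧ ∀ x y, |u x - u y| ≤ K * |x - y| := by
  have hb : ∀ v : ℝ → ℝ, Continuous v → Function.Periodic v (2 * π) → ∃ K, ∀ x, |v x| ≤ K := by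
    intro v hv hvp
    obtain ⟨K, hK⟩ := (hvp.isBounded_of_continuous (by positivity) hv).exists_norm_le
    exact ⟨K, fun x => hK _ ⟨x, rfl⟩⟩
  obtain ⟨K1, h1⟩ := hb u (continuous_iff_continuousAt.2 fun x => (hu x).continuousAt) hp
  obtain ⟨K2, h2⟩ := hb (deriv u) (continuous_iff_continuousAt.2 fun x => (hu x).deriv.continuousAt)
    (fun x => by
      rw [← deriv_comp_add_const]
      congr 1
      exact funext hp)
  refine ⟨|K1| + |K2| + 1, by positivity, fun x => ?_, fun x y => ?_⟩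
  · have := h1 x
    have := le_abs_self K1
    have := abs_nonneg K2
    linarith
  · have := Convex.norm_image_sub_le_of_norm_deriv_le (𝕜 := ℝ) (f := u) (s := Set.univ)
      (C := |K1| + |K2| + 1) (fun x _ => (hu x).differentiableAt) (fun x _ => by
        have := h2 x
        have := le_abs_self K2
        have := abs_nonneg K1
        rw [Real.norm_eq_abs]
        linarith) convex_univ (Set.mem_univ y) (Set.mem_univ x)
    simpa using this

/-- lifted cyclically ordered tuples -/
def Cyc {n : ℕ} (t : Fin n → ℝ) : Prop := StrictMono t ∧ ∀ i j, t j < t i + 2 * π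

lemma Cyc.exp_inj {n : ℕ} {t : Fin n → ℝ} (ht : Cyc t) {i j : Fin n}
    (h : Circle.exp (t i) = Circle.exp (t j)) : i = j := by
  obtain ⟨m, hm⟩ := Circle.exp_eq_exp.1 h
  have h1 := ht.2 i j
  have h2 := ht.2 j i
  have hp := Real.pi_pos
  have h3 : (m : ℝ) < 1 := by nlinarith
  have h4 : (-1 : ℝ) < m := by nlinarith
  have h5 : m = 0 := by
    have : m < 1 := by exact_mod_cast h3
    have : -1 < m := by exact_mod_cast h4
    omega
  subst h5
  exact ht.1.injective (by simpa using hm)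

lemma cos_ne {x y : ℝ} : 1 - cos (x - y) = 0 ↔ Circle.exp x = Circle.exp y := by
  rw [Circle.exp_eq_exp, sub_eq_zero, eq_comm, Real.cos_eq_one_iff]
  constructor
  · rintro ⟨m, hm⟩; exact ⟨m, by linarith⟩
  · rintro ⟨m, hm⟩; exact ⟨m, by linarith⟩

lemma G_trans {n : ℕ} {s t : Fin n → ℝ} (hs : Cyc s) (ht : Cyc t) :
    ∃ f ∈ G, ∀ i, f (s i) = t i := by
  classical
  have hconv : Convex ℝ {t : Fin n → ℝ | Cyc t} := by
    intro x hx y hy a b ha hb hab
    have key : ∀ p q r s : ℝ, p < q → r < s → a * p + b * r < a * q + b * s := by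
      intro p q r s h1 h2
      rcases ha.eq_or_lt with rfl | ha'
      · have : b = 1 := by linarith
        subst this; linarith
      · nlinarith
    refine ⟨fun i j hij => ?_, fun i j => ?_⟩
    · simpa using key _ _ _ _ (hx.1 hij) (hy.1 hij)
    · have := key _ _ _ _ (hx.2 i j) (hy.2 i j)
      simp only [Pi.add_apply, Pi.smul_apply, smul_eq_mul]
      have h2 : (a + b) * (2 * π) = 2 * π := by rw [hab, one_mul]
      nlinarith
  refine hconv.isPreconnected.induction₂ (fun s t => ∃ f ∈ G, ∀ i, f (s i) = t i) ?_ ?_ ?_ hs ht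
  · intro x hx
    let l : Fin n → ℝ → ℝ := fun i p =>
      ∏ j ∈ Finset.univ.erase i, ((1 - cos (p - x j)) * (1 - cos (x i - x j))⁻¹)
    have la : ∀ i p, AnalyticAt ℝ (l i) p := by
      intro i p
      refine Finset.analyticAt_fun_prod _ fun j _ => ?_
      fun_prop
    have lp : ∀ i p, l i (p + 2 * π) = l i p := by
      intro i p
      refine Finset.prod_congr rfl fun j _ => ?_
      rw [show p + 2 * π - x j = p - x j + 2 * π by ring, Real.cos_add_two_pi]
    have l1 : ∀ i, l i (x i) = 1 := by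
      intro i
      refine Finset.prod_eq_one fun j hj => mul_inv_cancel₀ fun h => ?_
      exact (Finset.ne_of_mem_erase hj) (Cyc.exp_inj hx (cos_ne.1 h)).symm
    have l0 : ∀ i j, j ≠ i → l i (x j) = 0 := by
      intro i j hj
      exact Finset.prod_eq_zero (i := j) (by simp [hj]) (by simp)
    choose K hK0 _ hK using fun i => per_lip (l i) (la i) (lp i)
    have hev : ∀ᶠ y in 𝓝 x, ∑ i, |y i - x i| * K i < 1 / 2 := by
      have hc : Continuous fun y : Fin n → ℝ => ∑ i, |y i - x i| * K i := by fun_prop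
      refine hc.continuousAt.eventually_lt continuousAt_const ?_
      simp
    filter_upwards [nhdsWithin_le_nhds hev] with y hy
    obtain ⟨f, hf, hf'⟩ := pert (fun p => ∑ i, (y i - x i) * l i p)
      (fun p => Finset.analyticAt_fun_sum _ fun i _ => analyticAt_const.mul (la i p))
      (fun p => by simp only [lp]) (fun p q => by
        rw [← Finset.sum_sub_distrib]
        refine (Finset.abs_sum_le_sum_abs _ _).trans ?_
        refine le_trans (Finset.sum_le_sum (g := fun i => |y i - x i| * K i * |p - q|)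
          fun i _ => ?_) ?_
        · rw [← mul_sub, abs_mul, mul_assoc]
          exact mul_le_mul_of_nonneg_left (hK i p q) (abs_nonneg _)
        · rw [← Finset.sum_mul]
          exact mul_le_mul_of_nonneg_right hy.le (abs_nonneg _))
    refine ⟨f, hf, fun i => ?_⟩
    rw [hf', Finset.sum_eq_single i, l1]
    · ring
    · intro j _ hj
      rw [l0 j i hj.symm, mul_zero]
    · simp
  · rintro x y z - - - ⟨f, hf, h1⟩ ⟨g, hg, h2⟩
    exact ⟨g * f, G.mul_mem hg hf, fun i => by rw [mul_ap, h1, h2]⟩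
  · rintro x y - - ⟨f, hf, h1⟩
    exact ⟨f⁻¹, G.inv_mem hf, fun i => by rw [← h1, inv_ap]⟩

lemma desc {f : ℝ ≃o ℝ} (hf : f ∈ G) :
    ∃ γ : Circle ≃ₜ Circle, ∀ t, γ (Circle.exp t) = Circle.exp (f t) := by
  have hq : IsQuotientMap Circle.exp :=
    isLocalHomeomorph_circleExp.isOpenMap.isQuotientMap Circle.exp.continuous
      Circle.exp_surjective
  have key : ∀ f : ℝ ≃o ℝ, f ∈ G → ∃ φ : Circle → Circle, Continuous φ ∧
      ∀ t, φ (Circle.exp t) = Circle.exp (f t) := by
    intro f hf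
    have h1 : ∀ t, Circle.exp (f (Complex.arg (Circle.exp t))) = Circle.exp (f t) :=
      fun t => exp_congr hf (Circle.exp_arg _)
    refine ⟨fun z => Circle.exp (f (Complex.arg z)), hq.continuous_iff.2 ?_, h1⟩
    have : ((fun z : Circle => Circle.exp (f (Complex.arg z))) ∘ Circle.exp) =
        fun t => Circle.exp (f t) := funext h1
    rw [this]
    exact Circle.exp.continuous.comp f.continuous
  obtain ⟨φ, h1, h2⟩ := key f hf
  obtain ⟨ψ, h3, h4⟩ := key f⁻¹ (G.inv_mem hf)
  refine ⟨⟨⟨φ, ψ, fun z => ?_, fun z => ?_⟩, h1, h3⟩, h2⟩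
  · obtain ⟨t, rfl⟩ := Circle.exp_surjective z
    rw [h2, h4, inv_ap]
  · obtain ⟨t, rfl⟩ := Circle.exp_surjective z
    rw [h4, h2, ap_inv]

end Pool.Agent.H.MP_e2537c_al
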