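import Mathlib

set_option autoImplicit false
open Filter hiding mk
open Real Asymptotics Topology

namespace Pool.Agent.H.MP_e2537c_al

abbrev P : Type := ℕ → Bool

noncomputable def aa (k : ℕ) : ℝ := exp (4 * (k : ℝ) ^ 2 + 4 * k)

noncomputable def ee : ℕ → ℝ
  | 0 => 1
  | k + 1 => ee k / (4 * aa k * aa (k + 1) ^ 3)

noncomputable def psi (k : ℕ) (z : Circle) : ℝ :=
  exp ((k : ℝ) ^ 2 * (z : ℂ).re + k * (z : ℂ).im)

def bit (r : P) (j : ℕ) : ℝ := if r j then 1 else 0

noncomputable def SS (r : P) (z : Circle) : ℝ := ∑' j, bit r j * ee j * psi j z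

lemma aa_ge (k : ℕ) : 1 ≤ aa k := one_le_exp (by positivity)
lemma aa_pos (k : ℕ) : 0 < aa k := exp_pos _

lemma ee_pos (k : ℕ) : 0 < ee k := by
  induction k with
  | zero => simp [ee]
  | succ k ih => have := aa_pos k; have := aa_pos (k + 1); simp only [ee]; positivity

lemma ee_succ (k : ℕ) : ee (k + 1) * aa (k + 1) ^ 3 = ee k / (4 * aa k) := by
  have := aa_pos k; have := aa_pos (k + 1)
  simp only [ee]; field_simp

lemma le_cube (k : ℕ) : ee k * aa k ≤ ee k * aa k ^ 3 :=
  mul_le_mul_of_nonneg_left (le_self_pow₀ (aa_ge k) (by norm_num)) (ee_pos k).le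

lemma div_le (k : ℕ) : ee k / (4 * aa k) ≤ ee k * aa k / 4 := by
  have h1 := aa_ge k; have h2 := ee_pos k
  rw [div_le_div_iff₀ (by positivity) (by norm_num)]
  have : 1 ≤ aa k * aa k := by nlinarith
  nlinarith

lemma uu_le (k i : ℕ) : ee (i + k) * aa (i + k) ≤ ee k * aa k * (1 / 4) ^ i := by
  induction i with
  | zero => simp
  | succ i ih =>
    rw [show i + 1 + k = i + k + 1 by ring]
    have h1 := le_cube (i + k + 1)
    have h2 := ee_succ (i + k)
    have h3 := div_le (i + k)
    rw [pow_succ]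
    linarith

lemma cube_le (k : ℕ) : ee k * aa k ^ 3 ≤ (1 / 4) ^ k := by
  induction k with
  | zero => simp [ee, aa]
  | succ k ih =>
    have h1 := le_cube k
    have h2 := ee_succ k
    have h3 := div_le k
    rw [pow_succ (1 / 4 : ℝ)]
    linarith

lemma tail (c v : ℕ → ℝ) (k : ℕ) (B : ℝ) (hB : 0 ≤ B) (hc : ∀ j, |c j| ≤ 1)
    (h0 : ∀ j < k, c j = 0) (hv : ∀ j, |v j| ≤ B * aa j) :
    Summable (fun j => c j * ee j * v j) ∧ |∑' j, c j * ee j * v j| ≤ 2 * B * (ee k * aa k) := by
  have hb : ∀ i, ‖c (i + k) * ee (i + k) * v (i + k)‖ ≤ B * (ee k * aa k) * (1 / 4) ^ i := by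
    intro i
    rw [Real.norm_eq_abs, abs_mul, abs_mul, abs_of_pos (ee_pos _)]
    have h1 := hc (i + k)
    have h2 := hv (i + k)
    have h3 := uu_le k i
    have h4 := ee_pos (i + k)
    calc |c (i + k)| * ee (i + k) * |v (i + k)| ≤ 1 * ee (i + k) * (B * aa (i + k)) := by
          gcongr
      _ = B * (ee (i + k) * aa (i + k)) := by ring
      _ ≤ B * (ee k * aa k * (1 / 4) ^ i) := by gcongr
      _ = _ := by ring
  have hg : HasSum (fun i : ℕ => B * (ee k * aa k) * (1 / 4 : ℝ) ^ i)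
      (B * (ee k * aa k) * (1 - 1 / 4)⁻¹) :=
    (hasSum_geometric_of_lt_one (by norm_num) (by norm_num)).mul_left _
  have hs : Summable (fun j => c j * ee j * v j) :=
    (summable_nat_add_iff k).1 (Summable.of_norm_bounded hg.summable hb)
  refine ⟨hs, ?_⟩
  rw [← hs.sum_add_tsum_nat_add k, Finset.sum_eq_zero (fun j hj => by
    rw [h0 j (Finset.mem_range.1 hj)]; simp), zero_add]
  have := tsum_of_norm_bounded hg hb
  rw [Real.norm_eq_abs] at this
  have h5 : 0 ≤ B * (ee k * aa k) := by have := ee_pos k; have := aa_pos k; positivity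
  refine this.trans ?_
  norm_num
  linarith

lemma psi_pos (k : ℕ) (z : Circle) : 0 < psi k z := exp_pos _

lemma re_le (z : Circle) : |(z : ℂ).re| ≤ 1 := by
  simpa using Complex.abs_re_le_norm (z : ℂ)
lemma im_le (z : Circle) : |(z : ℂ).im| ≤ 1 := by
  simpa using Complex.abs_im_le_norm (z : ℂ)

lemma psi_arg (k : ℕ) (z : Circle) :
    |(k : ℝ) ^ 2 * (z : ℂ).re + k * (z : ℂ).im| ≤ (k : ℝ) ^ 2 + k := by
  refine (abs_add_le _ _).trans ?_
  rw [abs_mul, abs_mul, abs_of_nonneg (by positivity : (0 : ℝ) ≤ (k : ℝ) ^ 2), Nat.abs_cast]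
  have := re_le z
  have := im_le z
  have : (0 : ℝ) ≤ k := by positivity
  gcongr <;> nlinarith

lemma psi_le (k : ℕ) (z : Circle) : |psi k z| ≤ 1 * aa k := by
  rw [abs_of_pos (psi_pos k z), one_mul]
  refine exp_le_exp.2 ?_
  have := (abs_le.1 (psi_arg k z)).2
  have : (0 : ℝ) ≤ k := by positivity
  nlinarith

lemma psi_ge (k : ℕ) (z : Circle) : 1 ≤ psi k z * aa k := by
  rw [psi, aa, ← exp_add]
  refine one_le_exp ?_
  have := (abs_le.1 (psi_arg k z)).1
  have : (0 : ℝ) ≤ k := by positivity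
  nlinarith

lemma psi_exp (k : ℕ) (x : ℝ) : psi k (Circle.exp x) = exp ((k : ℝ) ^ 2 * cos x + k * sin x) := by
  simp [psi, Complex.exp_ofReal_mul_I_re, Complex.exp_ofReal_mul_I_im]

lemma psi_lip (k : ℕ) (x y : ℝ) :
    |psi k (Circle.exp x) - psi k (Circle.exp y)| ≤ |x - y| * aa k := by
  simp only [psi_exp]
  have hd : ∀ x : ℝ, HasDerivAt (fun x => exp ((k : ℝ) ^ 2 * cos x + k * sin x))
      (exp ((k : ℝ) ^ 2 * cos x + k * sin x) * ((k : ℝ) ^ 2 * (-sin x) + k * cos x)) x :=
    fun x => (((hasDerivAt_cos x).const_mul _).add ((hasDerivAt_sin x).const_mul _)).exp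
  have := Convex.norm_image_sub_le_of_norm_deriv_le (𝕜 := ℝ)
    (f := fun x => exp ((k : ℝ) ^ 2 * cos x + k * sin x)) (s := Set.univ)
    (C := aa k) (fun x _ => (hd x).differentiableAt) (fun x _ => by
      rw [(hd x).deriv, Real.norm_eq_abs, abs_mul, abs_of_pos (exp_pos _)]
      have hk : (0 : ℝ) ≤ k := by positivity
      have h1 : |(k : ℝ) ^ 2 * (-sin x) + k * cos x| ≤ (k : ℝ) ^ 2 + k := by
        refine (abs_add_le _ _).trans ?_
        rw [abs_mul, abs_mul, abs_of_nonneg (by positivity : (0 : ℝ) ≤ (k : ℝ) ^ 2),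
          Nat.abs_cast, abs_neg]
        have := abs_sin_le_one x
        have := abs_cos_le_one x
        gcongr <;> nlinarith
      have h2 : (k : ℝ) ^ 2 + k ≤ exp ((k : ℝ) ^ 2 + k) := by
        linarith [add_one_le_exp ((k : ℝ) ^ 2 + k)]
      have h3 : exp ((k : ℝ) ^ 2 * cos x + k * sin x) ≤ exp ((k : ℝ) ^ 2 + k) := by
        refine exp_le_exp.2 ?_
        have := cos_le_one x
        have := sin_le_one x
        nlinarith
      calc _ ≤ exp ((k : ℝ) ^ 2 + k) * exp ((k : ℝ) ^ 2 + k) :=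
            mul_le_mul h3 (h1.trans h2) (abs_nonneg _) (exp_pos _).le
        _ ≤ aa k := by
            rw [← exp_add]
            exact exp_le_exp.2 (by nlinarith)) convex_univ (Set.mem_univ y) (Set.mem_univ x)
  rw [mul_comm |x - y|]
  simpa using this

lemma bit_le (r : P) (j : ℕ) : |bit r j| ≤ 1 := by
  unfold bit; split_ifs <;> simp

lemma bit_sub_le (r s : P) (j : ℕ) : |bit r j - bit s j| ≤ 1 := by
  unfold bit; split_ifs <;> simp

lemma SS_summable (r : P) (z : Circle) : Summable fun j => bit r j * ee j * psi j z :=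
  (tail (bit r) (fun j => psi j z) 0 1 zero_le_one (bit_le r) (by simp)
    (fun j => psi_le j z)).1

lemma SS_le (r : P) (z : Circle) : |SS r z| ≤ 2 := by
  simpa [ee, aa, SS] using (tail (bit r) (fun j => psi j z) 0 1 zero_le_one (bit_le r) (by simp)
    (fun j => psi_le j z)).2

lemma SS_lip (r : P) (x y : ℝ) :
    |SS r (Circle.exp x) - SS r (Circle.exp y)| ≤ 2 * |x - y| := by
  have := (tail (bit r) (fun j => psi j (Circle.exp x) - psi j (Circle.exp y)) 0 |x - y|
    (abs_nonneg _) (bit_le r) (by simp) (fun j => psi_lip j x y)).2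
  rw [SS, SS, ← (SS_summable r _).tsum_sub (SS_summable r _)]
  simp only [← mul_sub]
  simpa [ee, aa] using this

lemma cnorm (z : ℂ) (hz : |z.im| < 1) : ‖Complex.cos z‖ ≤ 3 ∧ ‖Complex.sin z‖ ≤ 3 := by
  have h1 : ‖Complex.exp (z * Complex.I)‖ ≤ 3 := by
    rw [Complex.norm_exp]
    have : (z * Complex.I).re ≤ 1 := by simp; linarith [(abs_lt.1 hz).1]
    exact (exp_le_exp.2 this).trans (exp_one_lt_d9.le.trans (by norm_num))
  have h2 : ‖Complex.exp (-z * Complex.I)‖ ≤ 3 := by
    rw [Complex.norm_exp]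
    have : (-z * Complex.I).re ≤ 1 := by simp; linarith [(abs_lt.1 hz).2]
    exact (exp_le_exp.2 this).trans (exp_one_lt_d9.le.trans (by norm_num))
  constructor
  · rw [Complex.cos, norm_div]
    have := norm_add_le (Complex.exp (z * Complex.I)) (Complex.exp (-z * Complex.I))
    simp only [Complex.norm_ofNat]
    linarith
  · rw [Complex.sin, norm_div, norm_mul]
    have := norm_sub_le (Complex.exp (-z * Complex.I)) (Complex.exp (z * Complex.I))
    simp only [Complex.norm_ofNat, Complex.norm_I]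
    linarith

lemma SS_analytic (r : P) (x : ℝ) : AnalyticAt ℝ (fun x => SS r (Circle.exp x)) x := by
  let F : ℕ → ℂ → ℂ := fun j z =>
    ((bit r j * ee j : ℝ) : ℂ) * Complex.exp ((j : ℂ) ^ 2 * Complex.cos z + j * Complex.sin z)
  have hU : IsOpen {z : ℂ | |z.im| < 1} := isOpen_lt (by fun_prop) continuous_const
  have hu : Summable fun j => ee j * aa j := by
    refine Summable.of_nonneg_of_le (fun j => (mul_pos (ee_pos j) (aa_pos j)).le)
      (fun j => (le_cube j).trans (cube_le j)) ?_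
    exact summable_geometric_of_lt_one (by norm_num) (by norm_num)
  have hd := Complex.differentiableOn_tsum_of_summable_norm (F := F) hu
    (fun j => by simp only [F]; fun_prop) hU (fun j w hw => by
      simp only [F]
      rw [norm_mul, Complex.norm_real, Real.norm_eq_abs, abs_mul, abs_of_pos (ee_pos j)]
      have h1 := bit_le r j
      have h2 := ee_pos j
      have h3 : ‖Complex.exp ((j : ℂ) ^ 2 * Complex.cos w + j * Complex.sin w)‖ ≤ aa j := by
        refine (Complex.norm_exp_le_exp_norm _).trans (exp_le_exp.2 ?_)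
        refine (norm_add_le _ _).trans ?_
        rw [norm_mul, norm_mul, norm_pow, Complex.norm_natCast]
        obtain ⟨h4, h5⟩ := cnorm w hw
        have : (0 : ℝ) ≤ j := by positivity
        nlinarith
      calc _ ≤ 1 * ee j * aa j := by gcongr
        _ = _ := by ring)
  have ha : AnalyticAt ℂ (fun w => ∑' j, F j w) (x : ℂ) :=
    hd.analyticAt (hU.mem_nhds (by simp))
  have := ha.re_ofReal
  refine this.congr (Eventually.of_forall fun y => ?_)
  have h : ∑' j, F j y = ((SS r (Circle.exp y) : ℝ) : ℂ) := by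
    rw [SS, Complex.ofReal_tsum]
    refine tsum_congr fun j => ?_
    simp only [F, psi_exp]
    push_cast
    ring
  simp only [h, Complex.ofReal_re]

/-- difference of two members of the family -/
noncomputable def sd (r₀ : P) (z : Circle) (r : P) : ℝ := SS r z - SS r₀ z

noncomputable def MM (r₀ r : P) : ℝ := ee (PiNat.firstDiff r r₀) * aa (PiNat.firstDiff r r₀)

lemma MM_pos (r₀ r : P) : 0 < MM r₀ r := mul_pos (ee_pos _) (aa_pos _)

lemma sd_eq (r₀ : P) (z : Circle) (r : P) :
    sd r₀ z r = ∑' j, (bit r j - bit r₀ j) * ee j * psi j z := by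
  rw [sd, SS, SS, ← (SS_summable r _).tsum_sub (SS_summable r₀ _)]
  exact tsum_congr fun j => by ring

lemma bit_zero (r₀ r : P) : ∀ j < PiNat.firstDiff r r₀, bit r j - bit r₀ j = 0 := by
  intro j hj
  simp [bit, PiNat.apply_eq_of_lt_firstDiff hj]

lemma sd_le (r₀ : P) (z : Circle) (r : P) : |sd r₀ z r| ≤ 2 * MM r₀ r := by
  rw [sd_eq]
  simpa [MM] using (tail (fun j => bit r j - bit r₀ j) (fun j => psi j z) _ 1 zero_le_one
    (bit_sub_le r r₀) (bit_zero r₀ r) (fun j => psi_le j z)).2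

lemma sd_lip (r₀ r : P) (x y : ℝ) :
    |sd r₀ (Circle.exp x) r - sd r₀ (Circle.exp y) r| ≤ 2 * |x - y| * MM r₀ r := by
  have hs : ∀ z, Summable fun j => (bit r j - bit r₀ j) * ee j * psi j z := fun z =>
    (tail (fun j => bit r j - bit r₀ j) (fun j => psi j z) _ 1 zero_le_one
      (bit_sub_le r r₀) (bit_zero r₀ r) (fun j => psi_le j z)).1
  rw [sd_eq, sd_eq, ← (hs _).tsum_sub (hs _)]
  simp only [← mul_sub]
  exact (tail (fun j => bit r j - bit r₀ j)
    (fun j => psi j (Circle.exp x) - psi j (Circle.exp y)) _ |x - y|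
    (abs_nonneg _) (bit_sub_le r r₀) (bit_zero r₀ r) (fun j => psi_lip j x y)).2

lemma sd_two (r₀ : P) (z : Circle) (r : P) (hr : r ≠ r₀) :
    1 / 2 * (ee (PiNat.firstDiff r r₀) * psi (PiNat.firstDiff r r₀) z) ≤ |sd r₀ z r| ∧
    |sd r₀ z r| ≤ 2 * (ee (PiNat.firstDiff r r₀) * psi (PiNat.firstDiff r r₀) z) := by
  classical
  set k := PiNat.firstDiff r r₀ with hk
  have hs : Summable fun j => (bit r j - bit r₀ j) * ee j * psi j z :=
    (tail (fun j => bit r j - bit r₀ j) (fun j => psi j z) _ 1 zero_le_one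
      (bit_sub_le r r₀) (bit_zero r₀ r) (fun j => psi_le j z)).1
  have h1 := (tail (fun j => if j = k then 0 else bit r j - bit r₀ j) (fun j => psi j z) (k + 1) 1
    zero_le_one (fun j => by
      split_ifs
      · simp
      · exact bit_sub_le r r₀ j) (fun j hj => by
      split_ifs with h
      · rfl
      · exact bit_zero r₀ r j (by omega)) (fun j => psi_le j z)).2
  have h2 := hs.tsum_eq_add_tsum_ite k
  have h3 : (∑' j, if j = k then 0 else (bit r j - bit r₀ j) * ee j * psi j z) =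
      ∑' j, (if j = k then 0 else bit r j - bit r₀ j) * ee j * psi j z :=
    tsum_congr fun j => by split_ifs <;> simp
  rw [h3, ← sd_eq] at h2
  have h4 : |bit r k - bit r₀ k| = 1 := by
    have := PiNat.apply_firstDiff_ne hr
    rw [← hk] at this
    unfold bit
    revert this
    cases r k <;> cases r₀ k <;> simp
  have h5 : |(bit r k - bit r₀ k) * ee k * psi k z| = ee k * psi k z := by
    rw [abs_mul, abs_mul, h4, abs_of_pos (ee_pos k), abs_of_pos (psi_pos k z), one_mul]
  have h6 : ee (k + 1) * aa (k + 1) ≤ ee k * psi k z / 4 := by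
    refine (le_cube _).trans ?_
    rw [ee_succ]
    have := aa_pos k
    have := ee_pos k
    have := psi_ge k z
    rw [div_le_div_iff₀ (by positivity) (by norm_num)]
    nlinarith
  have h7 : 0 < ee k * psi k z := mul_pos (ee_pos k) (psi_pos k z)
  generalize (∑' j, (if j = k then 0 else bit r j - bit r₀ j) * ee j * psi j z) = T at h1 h2
  generalize (bit r k - bit r₀ k) * ee k * psi k z = A at h2 h5
  rw [h2]
  constructor
  · have := abs_add_le (A + T) (-T)
    rw [add_neg_cancel_right, abs_neg] at this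
    linarith
  · have := abs_add_le A T
    linarith

lemma psi_small {z w : Circle} (h : toLex ((z : ℂ).re, (z : ℂ).im) < toLex ((w : ℂ).re, (w : ℂ).im)) :
    (fun k => psi k z) =o[atTop] fun k => psi k w := by
  unfold psi
  rw [Real.isLittleO_exp_comp_exp_comp]
  rcases Prod.Lex.toLex_lt_toLex.1 h with h | ⟨h1, h2⟩
  · simp only at h
    have h1 : Tendsto (fun k : ℕ => (k : ℝ) * ((k : ℝ) * ((w : ℂ).re - (z : ℂ).re) +
        ((w : ℂ).im - (z : ℂ).im))) atTop atTop :=
      tendsto_natCast_atTop_atTop.atTop_mul_atTop₀ (tendsto_atTop_add_const_right _ _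
        (tendsto_natCast_atTop_atTop.atTop_mul_const (sub_pos.2 h)))
    exact h1.congr fun k => by ring
  · simp only at h1 h2
    have h3 : Tendsto (fun k : ℕ => (k : ℝ) * ((w : ℂ).im - (z : ℂ).im)) atTop atTop :=
      tendsto_natCast_atTop_atTop.atTop_mul_const (sub_pos.2 h2)
    exact h3.congr fun k => by rw [h1]; ring

/-- filters of parameters converging to a base parameter, avoiding it -/
structure Adm (r₀ : P) (l : Filter P) : Prop where
  ne : ∀ᶠ r in l, r ≠ r₀
  lim : Tendsto (fun r => PiNat.firstDiff r r₀) l atTop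

lemma Adm.MM_lim {r₀ : P} {l : Filter P} (h : Adm r₀ l) : Tendsto (MM r₀) l (𝓝 0) := by
  have : Tendsto (fun k => ee k * aa k) atTop (𝓝 0) :=
    squeeze_zero (fun j => (mul_pos (ee_pos j) (aa_pos j)).le)
      (fun j => (le_cube j).trans (cube_le j))
      (tendsto_pow_atTop_nhds_zero_of_lt_one (by norm_num) (by norm_num))
  exact this.comp h.lim

lemma Adm.sd_small {r₀ : P} {l : Filter P} (h : Adm r₀ l) {z w : Circle}
    (hzw : toLex ((z : ℂ).re, (z : ℂ).im) < toLex ((w : ℂ).re, (w : ℂ).im)) :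
    sd r₀ z =o[l] sd r₀ w := by
  have h1 : sd r₀ z =O[l] fun r => ee (PiNat.firstDiff r r₀) * psi (PiNat.firstDiff r r₀) z := by
    refine IsBigO.of_bound 2 ?_
    filter_upwards [h.ne] with r hr
    rw [Real.norm_eq_abs, Real.norm_eq_abs, abs_of_pos (mul_pos (ee_pos _) (psi_pos _ _))]
    exact (sd_two r₀ z r hr).2
  have h2 : (fun r => ee (PiNat.firstDiff r r₀) * psi (PiNat.firstDiff r r₀) w) =O[l] sd r₀ w := by
    refine IsBigO.of_bound 2 ?_
    filter_upwards [h.ne] with r hr
    rw [Real.norm_eq_abs, Real.norm_eq_abs, abs_of_pos (mul_pos (ee_pos _) (psi_pos _ _))]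
    linarith [(sd_two r₀ w r hr).1]
  have h3 := (isBigO_refl (fun r => ee (PiNat.firstDiff r r₀)) l).mul_isLittleO
    ((psi_small hzw).comp_tendsto h.lim)
  exact h1.trans_isLittleO (h3.trans_isBigO h2)

lemma Adm.sq_small {r₀ : P} {l : Filter P} (h : Adm r₀ l) (w : Circle) :
    (fun r => MM r₀ r ^ 2) =o[l] sd r₀ w := by
  have h1 : Tendsto (fun r => (1 / 4 : ℝ) ^ PiNat.firstDiff r r₀) l (𝓝 0) :=
    (tendsto_pow_atTop_nhds_zero_of_lt_one (by norm_num) (by norm_num)).comp h.lim
  refine isLittleO_iff.2 fun c hc => ?_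
  filter_upwards [h.ne, h1.eventually (gt_mem_nhds (half_pos hc))] with r hr hr'
  have h2 := (sd_two r₀ w r hr).1
  rw [Real.norm_eq_abs, Real.norm_eq_abs, abs_of_nonneg (sq_nonneg _), MM]
  set k := PiNat.firstDiff r r₀
  have h3 := cube_le k
  have h4 := psi_ge k w
  have h5 := ee_pos k
  have h6 := aa_pos k
  have h7 := psi_pos k w
  calc (ee k * aa k) ^ 2 ≤ (ee k * aa k) ^ 2 * (psi k w * aa k) :=
        le_mul_of_one_le_right (by positivity) h4
    _ = (ee k * aa k ^ 3) * (ee k * psi k w) := by ring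
    _ ≤ (c / 2) * (ee k * psi k w) := by gcongr; linarith
    _ = c * (1 / 2 * (ee k * psi k w)) := by ring
    _ ≤ _ := by gcongr

/-- functions bounded by a given gauge along a filter -/
def Bd (l : Filter P) (m : P → ℝ) : Submodule ℝ (P → ℝ) where
  carrier := {f | f =O[l] m}
  add_mem' := fun hf hg => IsBigO.add hf hg
  zero_mem' := isBigO_zero _ _
  smul_mem' := fun c _ hf => IsBigO.const_mul_left hf c

noncomputable def UU (r₀ : P) (l : Filter P) (Z : Set Circle) : Submodule ℝ (P → ℝ) :=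
  Bd l (fun r => MM r₀ r ^ 2) ⊔ Submodule.span ℝ (sd r₀ '' Z)

lemma UU_mono (r₀ : P) (l : Filter P) {Z W : Set Circle} (h : Z ⊆ W) : UU r₀ l Z ≤ UU r₀ l W :=
  sup_le_sup_left (Submodule.span_mono (Set.image_mono h)) _

lemma sd_O (r₀ : P) (l : Filter P) (z : Circle) : sd r₀ z =O[l] MM r₀ := by
  refine IsBigO.of_bound 2 (Eventually.of_forall fun r => ?_)
  rw [Real.norm_eq_abs, Real.norm_eq_abs, abs_of_pos (MM_pos _ _)]
  exact sd_le r₀ z r

lemma Adm.UU_O {r₀ : P} {l : Filter P} (h : Adm r₀ l) {Z : Set Circle} {f : P → ℝ}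
    (hf : f ∈ UU r₀ l Z) : f =O[l] MM r₀ := by
  have : UU r₀ l Z ≤ Bd l (MM r₀) := by
    refine sup_le (fun f hf => IsBigO.trans hf ?_) (Submodule.span_le.2 ?_)
    · have := (isBigO_refl (MM r₀) l).mul (h.MM_lim.isBigO_one ℝ)
      simpa [sq] using this
    · rintro _ ⟨z, -, rfl⟩
      exact sd_O r₀ l z
  exact this hf

lemma Adm.indep {r₀ : P} {l : Filter P} [l.NeBot] (h : Adm r₀ l) {Z : Set Circle} {w : Circle}
    (hw : w ∉ Z) : sd r₀ w ∉ UU r₀ l Z := by
  classical
  intro hmem
  obtain ⟨n, hn, v, hv, hnv⟩ := Submodule.mem_sup.1 hmem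
  obtain ⟨c, hc, rfl⟩ := (Finsupp.mem_span_image_iff_linearCombination ℝ).1 hv
  let d : Circle →₀ ℝ := Finsupp.single w 1 - c
  have hd : Finsupp.linearCombination ℝ (sd r₀) d = n := by
    simp only [d, map_sub, Finsupp.linearCombination_single, one_smul, ← hnv]
    abel
  have hdw : w ∈ d.support := by
    have : c w = 0 := by
      by_contra h0
      exact hw ((Finsupp.mem_supported ℝ c).1 hc (Finsupp.mem_support_iff.2 h0))
    simp [d, this]
  obtain ⟨z, hz, hmax⟩ := Finset.exists_max_image d.support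
    (fun z : Circle => toLex ((z : ℂ).re, (z : ℂ).im)) ⟨w, hdw⟩
  have h1 : (fun r => ∑ y ∈ d.support.erase z, d y * sd r₀ y r) =o[l] sd r₀ z := by
    refine IsLittleO.fun_sum fun y hy => IsLittleO.const_mul_left (h.sd_small ?_) _
    refine lt_of_le_of_ne (hmax y (Finset.mem_of_mem_erase hy)) fun he => ?_
    have := toLex.injective he
    simp only [Prod.mk.injEq] at this
    exact Finset.ne_of_mem_erase hy (Circle.ext (Complex.ext this.1 this.2))
  have h2 : n =o[l] sd r₀ z := IsBigO.trans_isLittleO hn (h.sq_small z)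
  have h3 : (fun r => d z * sd r₀ z r) =o[l] sd r₀ z := by
    refine (h2.sub h1).congr_left fun r => ?_
    rw [← hd, Finsupp.linearCombination_apply, Finsupp.sum, Finset.sum_apply,
      ← Finset.add_sum_erase _ _ hz]
    simp
  have h4 := (isLittleO_const_mul_left_iff (Finsupp.mem_support_iff.1 hz)).1 h3
  refine isLittleO_irrefl (h.ne.frequently.mono fun r hr h0 => ?_) h4
  have := (sd_two r₀ z r hr).1
  rw [h0, abs_zero] at this
  have := mul_pos (ee_pos (PiNat.firstDiff r r₀)) (psi_pos (PiNat.firstDiff r r₀) z)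
  linarith

lemma exists_adm {R : Set P} (hR : ¬ R.Countable) :
    ∃ r₀ ∈ R, ∃ l : Filter P, l.NeBot ∧ Adm r₀ l ∧ ∀ᶠ r in l, r ∈ R := by
  have : ∃ r₀ ∈ R, ∀ k, ∃ r ∈ R, r ≠ r₀ ∧ k ≤ PiNat.firstDiff r r₀ := by
    by_contra hcon
    push Not at hcon
    choose! k hk using hcon
    apply hR
    refine Set.MapsTo.countable_of_injOn (f := fun r => PiNat.res r (k r))
      (Set.mapsTo_univ _ _) (fun r hr s hs hrs => ?_) Set.countable_univ
    by_contra hne
    have h1 : k r = k s := by simpa using congrArg List.length hrs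
    simp only [h1] at hrs
    have h2 := hk s hs r hr hne
    exact PiNat.apply_firstDiff_ne hne (PiNat.res_eq_res.1 hrs h2)
  obtain ⟨r₀, hr₀, h⟩ := this
  choose f hf1 hf2 hf3 using h
  refine ⟨r₀, hr₀, map f atTop, inferInstance, ⟨?_, ?_⟩, ?_⟩
  · exact eventually_map.2 (Eventually.of_forall hf2)
  · exact tendsto_map'_iff.2 (tendsto_atTop_mono hf3 tendsto_id)
  · exact eventually_map.2 (Eventually.of_forall hf1)

end Pool.Agent.H.MP_e2537c_al
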