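import Mathlib
import Pool.Agent.H.MP_e2537c_al.A
import Pool.Agent.H.MP_e2537c_al.B

set_option autoImplicit false
open Filter hiding mk
open Real Asymptotics Topology

namespace Pool.Agent.H.MP_e2537c_al

structure Fam where
  g0 : ℝ ≃o ℝ
  φ : P → ℝ ≃o ℝ
  ρ : ℝ → ℝ
  W : Set Circle
  hg0 : g0 ∈ G
  hφ : ∀ r, φ r ∈ G
  ρa : ∀ x, AnalyticAt ℝ ρ x
  ρb : ∃ K, ∀ x, |ρ x| ≤ K
  φe : ∀ r x, φ r x = x + ρ x * SS r (Circle.exp x)
  Wc : W.Countable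
  W1 : ∀ x, ρ x = 0 → Circle.exp x ∈ W
  W2 : ∀ x, ρ x = 0 → Circle.exp (g0 x) ∈ W

def dl (r₀ : P) (F : P → ℝ) : P → ℝ := fun r => F r - F r₀

noncomputable abbrev NN (r₀ : P) (l : Filter P) : Submodule ℝ (P → ℝ) := Bd l (fun r => MM r₀ r ^ 2)

lemma NN_le (r₀ : P) (l : Filter P) (Z : Set Circle) : NN r₀ l ≤ UU r₀ l Z := le_sup_left

lemma sd_mem (r₀ : P) (l : Filter P) {Z : Set Circle} {z : Circle} (hz : z ∈ Z) :
    sd r₀ z ∈ UU r₀ l Z :=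
  Submodule.mem_sup_right (Submodule.subset_span ⟨z, hz, rfl⟩)

variable {r₀ : P} {l : Filter P}

lemma Adm.NN_O (h : Adm r₀ l) {f : P → ℝ} (hf : f ∈ NN r₀ l) : f =O[l] MM r₀ :=
  h.UU_O (NN_le r₀ l ∅ hf)

lemma Adm.tend (h : Adm r₀ l) {F : P → ℝ} (hF : dl r₀ F =O[l] MM r₀) :
    Tendsto F l (𝓝 (F r₀)) := by
  have := hF.trans_tendsto h.MM_lim
  exact tendsto_sub_nhds_zero_iff.1 this

lemma Adm.stepH (h : Adm r₀ l) {F : P → ℝ} (hF : dl r₀ F =O[l] MM r₀) {f : ℝ → ℝ}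
    (hf : AnalyticAt ℝ f (F r₀)) :
    dl r₀ (fun r => f (F r)) - deriv f (F r₀) • dl r₀ F ∈ NN r₀ l := by
  have h1 := (taylor2 hf).comp_tendsto (h.tend hF)
  exact h1.trans (hF.pow 2)

lemma Adm.stepH_O (h : Adm r₀ l) {F : P → ℝ} (hF : dl r₀ F =O[l] MM r₀) {f : ℝ → ℝ}
    (hf : AnalyticAt ℝ f (F r₀)) : dl r₀ (fun r => f (F r)) =O[l] MM r₀ := by
  have h1 := (h.NN_O (h.stepH hF hf)).add (hF.const_mul_left (deriv f (F r₀)))
  exact h1.congr_left fun r => by simp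

namespace Fam
variable (Φ : Fam)

def g (r : P) : ℝ ≃o ℝ := Φ.g0 * Φ.φ r

lemma hg (r : P) : Φ.g r ∈ G := G.mul_mem Φ.hg0 (Φ.hφ r)

lemma φ_sub (r r₀ : P) (x : ℝ) : Φ.φ r x - Φ.φ r₀ x = Φ.ρ x * sd r₀ (Circle.exp x) r := by
  rw [Φ.φe, Φ.φe, sd]; ring

lemma sd_O' (F : P → ℝ) : (fun r => sd r₀ (Circle.exp (F r)) r) =O[l] MM r₀ := by
  refine IsBigO.of_bound 2 (Eventually.of_forall fun r => ?_)
  rw [Real.norm_eq_abs, Real.norm_eq_abs, abs_of_pos (MM_pos _ _)]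
  exact sd_le r₀ _ r

lemma stepD (h : Adm r₀ l) {F : P → ℝ} (hF : dl r₀ F =O[l] MM r₀) :
    (fun r => Φ.ρ (F r) * sd r₀ (Circle.exp (F r)) r) -
      Φ.ρ (F r₀) • sd r₀ (Circle.exp (F r₀)) ∈ NN r₀ l := by
  have h1 := (h.stepH_O hF (Φ.ρa _)).mul (sd_O' (r₀ := r₀) (l := l) F)
  have h2 : (fun r => sd r₀ (Circle.exp (F r)) r - sd r₀ (Circle.exp (F r₀)) r) =O[l]
      fun r => dl r₀ F r * MM r₀ r := by
    refine IsBigO.of_bound 2 (Eventually.of_forall fun r => ?_)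
    rw [Real.norm_eq_abs, Real.norm_eq_abs, abs_mul, abs_of_pos (MM_pos _ _), ← mul_assoc]
    exact sd_lip r₀ r _ _
  have h3 := (h2.trans (hF.mul (isBigO_refl (MM r₀) l))).const_mul_left (Φ.ρ (F r₀))
  refine ((h1.add h3).congr_left fun r => ?_).congr_right fun r => by ring
  simp only [dl, Pi.sub_apply, Pi.smul_apply, smul_eq_mul]
  ring

lemma stepG (h : Adm r₀ l) {F : P → ℝ} (hF : dl r₀ F =O[l] MM r₀) :
    ∃ κ μ : ℝ, κ ≠ 0 ∧ μ ≠ 0 ∧ dl r₀ (fun r => Φ.g r (F r)) - κ • dl r₀ F -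
      (μ * Φ.ρ (F r₀)) • sd r₀ (Circle.exp (F r₀)) ∈ NN r₀ l := by
  have h1 := (NN r₀ l).add_mem (h.stepH hF ((Φ.hφ r₀).1 _)) (Φ.stepD h hF)
  have h2 : dl r₀ (fun r => Φ.φ r (F r)) - deriv (Φ.φ r₀) (F r₀) • dl r₀ F -
      Φ.ρ (F r₀) • sd r₀ (Circle.exp (F r₀)) ∈ NN r₀ l := by
    convert h1 using 1
    funext r
    simp only [dl, Pi.sub_apply, Pi.add_apply, Pi.smul_apply, smul_eq_mul, ← Φ.φ_sub]
    ring
  have h3 : dl r₀ (fun r => Φ.φ r (F r)) =O[l] MM r₀ := by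
    have := ((h.NN_O h2).add (hF.const_mul_left (deriv (Φ.φ r₀) (F r₀)))).add
      ((sd_O r₀ l (Circle.exp (F r₀))).const_mul_left (Φ.ρ (F r₀)))
    exact this.congr_left fun r => by
      simp only [Pi.sub_apply, Pi.smul_apply, smul_eq_mul]; ring
  have h4 := h.stepH h3 (Φ.hg0.1 _)
  refine ⟨deriv Φ.g0 (Φ.φ r₀ (F r₀)) * deriv (Φ.φ r₀) (F r₀), deriv Φ.g0 (Φ.φ r₀ (F r₀)),
    mul_ne_zero (deriv_ne Φ.hg0 _) (deriv_ne (Φ.hφ r₀) _), deriv_ne Φ.hg0 _, ?_⟩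
  convert (NN r₀ l).add_mem h4 ((NN r₀ l).smul_mem (deriv Φ.g0 (Φ.φ r₀ (F r₀))) h2) using 1
  funext r
  simp only [dl, g, mul_ap, Pi.sub_apply, Pi.add_apply, Pi.smul_apply, smul_eq_mul]
  ring

lemma inv_O (h : Adm r₀ l) {F : P → ℝ} (hF : dl r₀ F =O[l] MM r₀) :
    dl r₀ (fun r => (Φ.g r)⁻¹ (F r)) =O[l] MM r₀ := by
  set Q : P → ℝ := fun r => (Φ.g r)⁻¹ (F r) with hQ
  have e1 : ∀ r, Φ.φ r (Q r) = Φ.g0⁻¹ (F r) := by
    intro r
    have : Φ.g0 (Φ.φ r (Q r)) = F r := ap_inv (Φ.g r) (F r)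
    rw [← this, inv_ap]
  have h1 := h.stepH_O hF ((G.inv_mem Φ.hg0).1 _)
  obtain ⟨K, hK⟩ := Φ.ρb
  have h2 : (fun r => Φ.ρ (Q r)) =O[l] (fun _ => (1 : ℝ)) :=
    IsBigO.of_bound K (Eventually.of_forall fun r => by simpa using hK _)
  have h3 := h2.mul (sd_O' (r₀ := r₀) (l := l) Q)
  simp only [one_mul] at h3
  have h4 : dl r₀ (fun r => Φ.φ r₀ (Q r)) =O[l] MM r₀ := by
    refine (h1.sub h3).congr_left fun r => ?_
    simp only [dl, ← e1, ← Φ.φ_sub]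
    ring
  have h5 := h.stepH_O h4 ((G.inv_mem (Φ.hφ r₀)).1 _)
  simpa only [inv_ap] using h5

def gp (e : Bool) (r : P) : ℝ ≃o ℝ := if e then Φ.g r else (Φ.g r)⁻¹

def qq (e : Bool) (F : P → ℝ) (r : P) : ℝ := if e then F r else (Φ.g r)⁻¹ (F r)

lemma step (h : Adm r₀ l) {F : P → ℝ} {Z : Set Circle} (hF : dl r₀ F ∈ UU r₀ l Z) (e : Bool) :
    ∃ μ : ℝ, μ ≠ 0 ∧ dl r₀ (fun r => Φ.gp e r (F r)) -
      (μ * Φ.ρ (Φ.qq e F r₀)) • sd r₀ (Circle.exp (Φ.qq e F r₀)) ∈ UU r₀ l Z := by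
  cases e
  · obtain ⟨κ, μ, h1, h2, h3⟩ := Φ.stepG h (Φ.inv_O h (h.UU_O hF))
    refine ⟨-(κ⁻¹ * μ), neg_ne_zero.2 (mul_ne_zero (inv_ne_zero h1) h2), ?_⟩
    simp only [ap_inv] at h3
    convert (UU r₀ l Z).smul_mem κ⁻¹ ((UU r₀ l Z).sub_mem hF (NN_le r₀ l Z h3)) using 1
    funext r
    simp only [dl, gp, qq, Pi.sub_apply, Pi.smul_apply, smul_eq_mul, Bool.false_eq_true,
      if_false]
    field_simp
    ring
  · obtain ⟨κ, μ, h1, h2, h3⟩ := Φ.stepG h (h.UU_O hF)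
    refine ⟨μ, h2, ?_⟩
    convert (UU r₀ l Z).add_mem (NN_le r₀ l Z h3) ((UU r₀ l Z).smul_mem κ hF) using 1
    funext r
    simp only [dl, gp, qq, Pi.sub_apply, Pi.add_apply, Pi.smul_apply, smul_eq_mul, if_true]
    ring

abbrev Wd : Type := List ((ℝ ≃o ℝ) × Bool)

def ev (p : ℝ) : Wd → P → ℝ
  | [], _ => p
  | a :: ω, r => a.1 (Φ.gp a.2 r (ev p ω r))

def Qs (p : ℝ) : Wd → List (P → ℝ)
  | [] => []
  | a :: ω => Φ.qq a.2 (Φ.ev p ω) :: Qs p ω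

def ZZ (p : ℝ) (ω : Wd) (r : P) : Set Circle := {z | ∃ Q ∈ Φ.Qs p ω, z = Circle.exp (Q r)}

lemma ZZ_cons (p : ℝ) (a : (ℝ ≃o ℝ) × Bool) (ω : Wd) (r : P) :
    Φ.ZZ p (a :: ω) r = insert (Circle.exp (Φ.qq a.2 (Φ.ev p ω) r)) (Φ.ZZ p ω r) := by
  ext z; simp [ZZ, Qs]

lemma memH (h : Adm r₀ l) {F : P → ℝ} {Z : Set Circle} (hF : dl r₀ F ∈ UU r₀ l Z) {f : ℝ → ℝ}
    (hf : AnalyticAt ℝ f (F r₀)) : dl r₀ (fun r => f (F r)) ∈ UU r₀ l Z := by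
  have := (UU r₀ l Z).add_mem (NN_le r₀ l Z (h.stepH (h.UU_O hF) hf))
    ((UU r₀ l Z).smul_mem (deriv f (F r₀)) hF)
  simpa using this

lemma step_mem (h : Adm r₀ l) {F : P → ℝ} {Z : Set Circle} (hF : dl r₀ F ∈ UU r₀ l Z) (e : Bool) :
    dl r₀ (fun r => Φ.gp e r (F r)) ∈ UU r₀ l (insert (Circle.exp (Φ.qq e F r₀)) Z) := by
  obtain ⟨μ, -, h1⟩ := Φ.step h hF e
  have := Submodule.add_mem _ (UU_mono r₀ l (Set.subset_insert (Circle.exp (Φ.qq e F r₀)) Z) h1)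
    (Submodule.smul_mem _ (μ * Φ.ρ (Φ.qq e F r₀)) (sd_mem r₀ l (Set.mem_insert _ _)))
  simpa using this

lemma memA (h : Adm r₀ l) (p : ℝ) : ∀ ω : Wd, (∀ a ∈ ω, a.1 ∈ G) →
    dl r₀ (Φ.ev p ω) ∈ UU r₀ l (Φ.ZZ p ω r₀) ∧ ∀ Q ∈ Φ.Qs p ω,
      dl r₀ Q ∈ UU r₀ l (Φ.ZZ p ω r₀) ∧ dl r₀ (fun r => Φ.g r (Q r)) ∈ UU r₀ l (Φ.ZZ p ω r₀)
  | [], _ => by
    refine ⟨?_, by simp [Qs]⟩
    have : dl r₀ (Φ.ev p []) = 0 := by funext r; simp [dl, ev]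
    rw [this]; exact Submodule.zero_mem _
  | a :: ω, hG => by
    obtain ⟨h1, h2⟩ := memA h p ω fun b hb => hG b (List.mem_cons_of_mem _ hb)
    have h3 := Φ.step_mem h h1 a.2
    have hm := UU_mono r₀ l (Set.subset_insert (Circle.exp (Φ.qq a.2 (Φ.ev p ω) r₀))
      (Φ.ZZ p ω r₀))
    rw [ZZ_cons]
    refine ⟨memH h h3 ((hG a List.mem_cons_self).1 _), fun Q hQ => ?_⟩
    rcases List.mem_cons.1 hQ with rfl | hQ
    · obtain ⟨k, e⟩ := a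
      cases e
      · refine ⟨h3, ?_⟩
        have : (fun r => Φ.g r (Φ.qq false (Φ.ev p ω) r)) = Φ.ev p ω := by
          funext r; simp [qq]
        rw [this]; exact hm h1
      · exact ⟨hm h1, h3⟩
    · exact ⟨hm (h2 Q hQ).1, hm (h2 Q hQ).2⟩

def Good (p : ℝ) (a : (ℝ ≃o ℝ) × Bool) (ω : Wd) : Prop :=
  {r | Φ.ρ (Φ.qq a.2 (Φ.ev p ω) r) = 0 ∨
    Circle.exp (Φ.qq a.2 (Φ.ev p ω) r) ∈ Φ.ZZ p ω r}.Countable

lemma key (p : ℝ) (a : (ℝ ≃o ℝ) × Bool) (ω : Wd) (hG : ∀ b ∈ a :: ω, b.1 ∈ G)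
    (hgood : Φ.Good p a ω) (F : P → ℝ)
    (hF : ∀ r₀ l, Adm r₀ l → dl r₀ F ∈ UU r₀ l (Φ.ZZ p ω r₀)) :
    {r | Circle.exp (Φ.ev p (a :: ω) r) = Circle.exp (F r)}.Countable := by
  have : {r | Circle.exp (Φ.ev p (a :: ω) r) = Circle.exp (F r)} =
      ⋃ m : ℤ, {r | Φ.ev p (a :: ω) r = F r + m * (2 * π)} := by
    ext x; simp [Circle.exp_eq_exp]
  rw [this]
  refine Set.countable_iUnion fun m => ?_
  by_contra hunc
  have hunc' : ¬ ({r | Φ.ev p (a :: ω) r = F r + m * (2 * π)} \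
      {r | Φ.ρ (Φ.qq a.2 (Φ.ev p ω) r) = 0 ∨
        Circle.exp (Φ.qq a.2 (Φ.ev p ω) r) ∈ Φ.ZZ p ω r}).Countable := by
    intro hc
    exact hunc ((hc.union hgood).mono (by rw [Set.sdiff_union_self]; exact Set.subset_union_left))
  obtain ⟨r₀, ⟨hr1, hr2⟩, l, hl, h, hev⟩ := exists_adm hunc'
  simp only [Set.mem_ofPred_eq, not_or] at hr1 hr2
  have h1 := (Φ.memA h p ω fun b hb => hG b (List.mem_cons_of_mem _ hb)).1
  obtain ⟨μ, hμ, h2⟩ := Φ.step h h1 a.2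
  have h3 := h.stepH (h.UU_O (Φ.step_mem h h1 a.2)) ((hG a List.mem_cons_self).1 _)
  have h4 : dl r₀ (Φ.ev p (a :: ω)) - dl r₀ F ∈ NN r₀ l := by
    refine (isBigO_zero _ l).congr' ?_ EventuallyEq.rfl
    filter_upwards [hev] with r hr
    have := hr.1
    simp only [Set.mem_ofPred_eq] at this
    simp only [dl, Pi.sub_apply, this, hr1]
    ring
  set κ := deriv a.1 (Φ.gp a.2 r₀ (Φ.ev p ω r₀)) with hκ
  have hκ0 : κ ≠ 0 := deriv_ne (hG a List.mem_cons_self) _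
  set ν := μ * Φ.ρ (Φ.qq a.2 (Φ.ev p ω) r₀) with hν
  have hν0 : ν ≠ 0 := mul_ne_zero hμ hr2.1
  refine h.indep hr2.2 ?_
  have h5 := Submodule.smul_mem _ (κ * ν)⁻¹ (Submodule.sub_mem _ (Submodule.sub_mem _
    (Submodule.add_mem _ (NN_le r₀ l _ h4) (hF r₀ l h)) (NN_le r₀ l _ h3))
    (Submodule.smul_mem _ κ h2))
  convert h5 using 1
  funext r
  simp only [dl, ev, Pi.sub_apply, Pi.add_apply, Pi.smul_apply, smul_eq_mul]
  field_simp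
  ring

lemma key_const (p : ℝ) (a : (ℝ ≃o ℝ) × Bool) (ω : Wd) (hG : ∀ b ∈ a :: ω, b.1 ∈ G)
    (hgood : Φ.Good p a ω) {V : Set Circle} (hV : V.Countable) :
    {r | Circle.exp (Φ.ev p (a :: ω) r) ∈ V}.Countable := by
  have : {r | Circle.exp (Φ.ev p (a :: ω) r) ∈ V} =
      ⋃ z ∈ V, {r | Circle.exp (Φ.ev p (a :: ω) r) = Circle.exp (Complex.arg z)} := by
    ext r; simp [Circle.exp_arg]
  rw [this]
  refine hV.biUnion fun z _ => Φ.key p a ω hG hgood (fun _ => Complex.arg z) fun r₀ l _ => ?_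
  have : dl r₀ (fun _ => Complex.arg z) = 0 := by funext r; simp [dl]
  rw [this]; exact Submodule.zero_mem _

lemma ρ_zero (e : Bool) (F : P → ℝ) (r : P) (h : Φ.ρ (Φ.qq e F r) = 0) :
    Circle.exp (F r) ∈ Φ.W := by
  cases e
  · have h1 := Φ.W2 _ h
    have h2 : Φ.g r (Φ.qq false F r) = F r := by simp [qq]
    rw [g, mul_ap, Φ.φe, h, zero_mul, add_zero] at h2
    rwa [h2] at h1
  · exact Φ.W1 _ h

def Red (ω : Wd) : Prop := ω.IsChain fun a b => a.2 ≠ b.2 → ¬ Ctr b.1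

lemma good (p : ℝ) (hp : Circle.exp p ∉ Φ.W) : ∀ (ω : Wd) (a : (ℝ ≃o ℝ) × Bool),
    (∀ b ∈ a :: ω, b.1 ∈ G) → Red (a :: ω) → Φ.Good p a ω
  | [], a, _, _ => by
    refine Set.countable_empty.mono ?_
    rintro r (h | h)
    · exact hp (Φ.ρ_zero _ _ _ h)
    · simp [ZZ, Qs] at h
  | b :: ω, a, hG, hR => by
    have hG' : ∀ c ∈ b :: ω, c.1 ∈ G := fun c hc => hG c (List.mem_cons_of_mem _ hc)
    have hG'' : ∀ c ∈ ω, c.1 ∈ G := fun c hc => hG' c (List.mem_cons_of_mem _ hc)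
    obtain ⟨hab, hR'⟩ := List.isChain_cons_cons.1 hR
    have ih := good p hp ω b hG' hR'
    have c1 := Φ.key_const p b ω hG' ih Φ.Wc
    have c2 : ∀ Q ∈ Φ.Qs p ω, {r | Circle.exp (Φ.ev p (b :: ω) r) = Circle.exp (Q r) ∨
        Circle.exp (Φ.ev p (b :: ω) r) = Circle.exp (Φ.g r (Q r))}.Countable := fun Q hQ =>
      (Φ.key p b ω hG' ih Q fun r₀ l h => ((Φ.memA h p ω hG'').2 Q hQ).1).union
        (Φ.key p b ω hG' ih _ fun r₀ l h => ((Φ.memA h p ω hG'').2 Q hQ).2)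
    have c3 := Φ.key p b ω hG' ih _ fun r₀ l h => (Φ.memA h p ω hG'').1
    have c4 : {r | a.2 ≠ b.2 ∧ Circle.exp (b.1⁻¹ (Φ.ev p (b :: ω) r)) =
        Circle.exp (Φ.ev p (b :: ω) r)}.Countable := by
      by_cases hne : a.2 = b.2
      · simp [hne]
      · have hb := hG' b List.mem_cons_self
        have hc : ¬ Ctr b.1⁻¹ := by
          rintro ⟨m, hm⟩
          refine hab hne ⟨-m, fun x => ?_⟩
          have := hm (b.1 x)
          rw [inv_ap] at this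
          push_cast
          linarith
        refine (Φ.key_const p b ω hG' ih ((fix_exp_countable (G.inv_mem hb) hc).image
          Circle.exp)).mono ?_
        rintro r ⟨-, hr⟩
        exact ⟨_, hr, rfl⟩
    have c5 := (List.finite_toSet (Φ.Qs p ω)).countable.biUnion c2
    refine (((c1.union c5).union c3).union c4).mono ?_
    rintro r (h | h)
    · exact Or.inl (Or.inl (Or.inl (Φ.ρ_zero _ _ _ h)))
    · have tr : ∀ x, Circle.exp (Φ.qq a.2 (Φ.ev p (b :: ω)) r) = Circle.exp x →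
          Circle.exp (Φ.ev p (b :: ω) r) = Circle.exp (if a.2 then x else Φ.g r x) := by
        intro x hx
        obtain ⟨k, e⟩ := a
        cases e
        · have := exp_congr (Φ.hg r) hx
          simpa [qq, ap_inv] using this
        · simpa [qq] using hx
      rw [ZZ_cons] at h
      rcases h with h | ⟨Q, hQ, h⟩
      · have := tr _ h
        obtain ⟨k, e⟩ := a
        obtain ⟨k', e'⟩ := b
        cases e <;> cases e'
        · refine Or.inl (Or.inr ?_)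
          simpa [qq, ap_inv] using this
        · refine Or.inr ⟨by simp, ?_⟩
          rw [this]
          simp [ev, gp, qq]
        · refine Or.inr ⟨by simp, ?_⟩
          rw [this]
          simp [ev, gp, qq]
        · refine Or.inl (Or.inr ?_)
          simpa [qq, ap_inv] using this
      · refine Or.inl (Or.inl (Or.inr (Set.mem_biUnion (show Q ∈ {x | x ∈ Φ.Qs p ω} from hQ) ?_)))
        have := tr _ h
        split_ifs at this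
        · exact Or.inl this
        · exact Or.inr this

theorem core (p : ℝ) (hp : Circle.exp p ∉ Φ.W) (ω : Wd) (hne : ω ≠ []) (hG : ∀ b ∈ ω, b.1 ∈ G)
    (hR : Red ω) (z : Circle) : {r | Circle.exp (Φ.ev p ω r) = z}.Countable := by
  obtain ⟨a, ω, rfl⟩ := List.exists_cons_of_ne_nil hne
  exact Φ.key_const p a ω hG (Φ.good p hp ω a hG hR) (Set.countable_singleton z)

end Fam

end Pool.Agent.H.MP_e2537c_al
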