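import Mathlib
import Pool.Agent.H.MP_e2537c_al.C

set_option autoImplicit false
open Filter hiding mk
open Real Asymptotics Topology Cardinal

namespace Pool.Agent.H.MP_e2537c_al

lemma exists_fam {n : ℕ} {y x : Fin n → ℝ} (hy : Cyc y) (hx : Cyc x) :
    ∃ Φ : Fam, (∀ r i, Φ.g r (y i) = x i) ∧
      Φ.W = Set.range (fun i => Circle.exp (y i)) ∪ Set.range (fun i => Circle.exp (x i)) := by
  obtain ⟨g0, hg0, hg⟩ := G_trans hy hx
  let ρ0 : ℝ → ℝ := fun p => ∏ i, (1 - cos (p - y i))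
  have a0 : ∀ p, AnalyticAt ℝ ρ0 p := fun p =>
    Finset.analyticAt_fun_prod _ fun j _ => by fun_prop
  have p0 : ∀ p, ρ0 (p + 2 * π) = ρ0 p := fun p => Finset.prod_congr rfl fun j _ => by
    rw [show p + 2 * π - y j = p - y j + 2 * π by ring, Real.cos_add_two_pi]
  obtain ⟨K, hK, hb, hl⟩ := per_lip ρ0 a0 p0
  let ρ : ℝ → ℝ := fun p => (8 * K)⁻¹ * ρ0 p
  have a1 : ∀ p, AnalyticAt ℝ ρ p := fun p => analyticAt_const.mul (a0 p)
  have b1 : ∀ p, |ρ p| ≤ 1 / 8 := by
    intro p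
    simp only [ρ]
    rw [abs_mul, abs_of_pos (by positivity : 0 < (8 * K)⁻¹), inv_mul_le_iff₀ (by positivity)]
    linarith [hb p]
  have l1 : ∀ p q, |ρ p - ρ q| ≤ 1 / 8 * |p - q| := by
    intro p q
    simp only [ρ]
    rw [← mul_sub, abs_mul, abs_of_pos (by positivity : 0 < (8 * K)⁻¹),
      inv_mul_le_iff₀ (by positivity)]
    linarith [hl p q]
  have z1 : ∀ p, ρ p = 0 ↔ ∃ i, Circle.exp p = Circle.exp (y i) := by
    intro p
    have : (8 * K)⁻¹ ≠ 0 := by positivity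
    simp only [ρ, ρ0, mul_eq_zero, this, false_or, Finset.prod_eq_zero_iff, Finset.mem_univ,
      true_and, cos_ne]
  have hφ : ∀ r : P, ∃ f ∈ G, ∀ p, f p = p + ρ p * SS r (Circle.exp p) := by
    intro r
    refine pert _ (fun p => (a1 p).mul (SS_analytic r p)) (fun p => ?_) (fun p q => ?_)
    · simp only [ρ, p0, Circle.exp_add_two_pi]
    · have e : ρ p * SS r (Circle.exp p) - ρ q * SS r (Circle.exp q) =
          (ρ p - ρ q) * SS r (Circle.exp p) +
            ρ q * (SS r (Circle.exp p) - SS r (Circle.exp q)) := by ring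
      rw [e]
      refine (abs_add_le _ _).trans ?_
      rw [abs_mul, abs_mul]
      have h1 := mul_le_mul (l1 p q) (SS_le r (Circle.exp p)) (abs_nonneg _) (by positivity)
      have h2 := mul_le_mul (b1 q) (SS_lip r p q) (abs_nonneg _) (by positivity)
      linarith
  choose φ hφ1 hφ2 using hφ
  refine ⟨⟨g0, φ, ρ, Set.range (fun i => Circle.exp (y i)) ∪
    Set.range (fun i => Circle.exp (x i)), hg0, hφ1, a1, ⟨_, b1⟩, hφ2,
    (Set.countable_range _).union (Set.countable_range _), fun p hp => ?_, fun p hp => ?_⟩,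
    fun r i => ?_, rfl⟩
  · obtain ⟨i, hi⟩ := (z1 p).1 hp
    exact Or.inl ⟨i, hi.symm⟩
  · obtain ⟨i, hi⟩ := (z1 p).1 hp
    refine Or.inr ⟨i, ?_⟩
    simp only [← hg]
    exact (exp_congr hg0 hi).symm
  · simp only [Fam.g, mul_ap]
    rw [hφ2, (z1 _).2 ⟨i, rfl⟩, zero_mul, add_zero, hg]

namespace Fam
variable (Φ : Fam)

def NF (H : Subgroup (ℝ ≃o ℝ)) (r : P) (f : ℝ → ℝ) : Prop :=
  ∃ h0 ∈ H, ∃ ω : Wd, (∀ b ∈ ω, b.1 ∈ H) ∧ Red ω ∧ ∀ p, f p = Φ.ev (h0 p) ω r

lemma NF_H {H : Subgroup (ℝ ≃o ℝ)} {r : P} {f : ℝ → ℝ} (hf : Φ.NF H r f) {k : ℝ ≃o ℝ}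
    (hk : k ∈ H) : Φ.NF H r (fun p => k (f p)) := by
  obtain ⟨h0, hh0, ω, h1, h2, h3⟩ := hf
  rcases ω with _ | ⟨a, ω⟩
  · exact ⟨k * h0, H.mul_mem hk hh0, [], h1, h2, fun p => by simp [h3, ev]⟩
  · refine ⟨h0, hh0, (k * a.1, a.2) :: ω, ?_, ?_, fun p => by simp [h3, ev]⟩
    · intro b hb
      rcases List.mem_cons.1 hb with rfl | hb
      · exact H.mul_mem hk (h1 a List.mem_cons_self)
      · exact h1 b (List.mem_cons_of_mem _ hb)
    · rcases ω with _ | ⟨b, ω⟩
      · exact List.isChain_singleton _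
      · exact List.isChain_cons_cons.2 (List.isChain_cons_cons.1 h2)

lemma NF_g {H : Subgroup (ℝ ≃o ℝ)} {r : P} {f : ℝ → ℝ} (hf : Φ.NF H r f) (e : Bool) :
    Φ.NF H r (fun p => Φ.gp e r (f p)) := by
  obtain ⟨h0, hh0, ω, h1, h2, h3⟩ := hf
  have hm : ∀ b ∈ ((1 : ℝ ≃o ℝ), e) :: ω, b.1 ∈ H := by
    intro b hb
    rcases List.mem_cons.1 hb with rfl | hb
    · exact H.one_mem
    · exact h1 b hb
  rcases ω with _ | ⟨a, ω⟩
  · exact ⟨h0, hh0, [(1, e)], hm, List.isChain_singleton _, fun p => by simp [h3, ev]⟩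
  · by_cases hc : e ≠ a.2 → ¬ Ctr a.1
    · exact ⟨h0, hh0, (1, e) :: a :: ω, hm, List.isChain_cons_cons.2 ⟨hc, h2⟩,
        fun p => by simp [h3, ev]⟩
    · push Not at hc
      obtain ⟨hne, m, hm⟩ := hc
      have h4 : Φ.NF H r (fun p => Φ.ev (h0 p) ω r) :=
        ⟨h0, hh0, ω, fun b hb => h1 b (List.mem_cons_of_mem _ hb), h2.tail, fun p => rfl⟩
      have h5 := Φ.NF_H h4 (h1 a List.mem_cons_self)
      convert h5 using 2 with p
      rw [h3, ev, hm, hm]
      obtain ⟨k, e'⟩ := a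
      cases e <;> cases e'
      · simp at hne
      · simp only [gp, Bool.false_eq_true, if_false, if_true]
        rw [per_int (G.inv_mem (Φ.hg r)), inv_ap]
      · simp only [gp, Bool.false_eq_true, if_false, if_true]
        rw [per_int (Φ.hg r), ap_inv]
      · simp at hne

lemma NF_closure (H : Subgroup (ℝ ≃o ℝ)) (r : P) {f : ℝ ≃o ℝ}
    (hf : f ∈ Subgroup.closure (insert (Φ.g r) (H : Set (ℝ ≃o ℝ)))) : Φ.NF H r f := by
  induction hf using Subgroup.closure_induction_left with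
  | one => exact ⟨1, H.one_mem, [], by simp, List.isChain_nil, fun p => rfl⟩
  | mul_left x hx y _ ih =>
    rcases hx with rfl | hx
    · exact Φ.NF_g ih true
    · exact Φ.NF_H ih hx
  | inv_mul_cancel x hx y _ ih =>
    rcases hx with rfl | hx
    · exact Φ.NF_g ih false
    · exact Φ.NF_H ih (H.inv_mem hx)

end Fam

lemma card_closure {M : Type} [Group M] (S : Set M) (hS : #S < 𝔠) :
    #(Subgroup.closure S) < 𝔠 := by
  classical
  rw [FreeGroup.closure_eq_range]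
  refine (mk_range_le (f := FreeGroup.lift ((↑) : S → M))).trans_lt ?_
  refine (mk_le_of_injective FreeGroup.toWord_injective).trans_lt ?_
  refine (mk_list_le_max _).trans_lt (max_lt aleph0_lt_continuum ?_)
  rw [mk_prod, lift_id, lift_id]
  exact mul_lt_of_lt aleph0_le_continuum hS ((lt_aleph0_of_finite _).trans aleph0_lt_continuum)

def Inv (a b : Fin 9 → ℝ) (S : Set (ℝ ≃o ℝ)) : Prop :=
  ∀ f ∈ Subgroup.closure S, ¬ ∀ i, Circle.exp (f (b i)) = Circle.exp (a i)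

lemma extend {a b : Fin 9 → ℝ} (hb : Cyc b) (S : Set (ℝ ≃o ℝ)) (hSG : ∀ f ∈ S, f ∈ G)
    (hS : #S < 𝔠) (hI : Inv a b S) {y x : Fin 4 → ℝ} (hy : Cyc y) (hx : Cyc x) :
    ∃ g ∈ G, (∀ i, g (y i) = x i) ∧ Inv a b (insert g S) := by
  classical
  obtain ⟨Φ, h1, h2⟩ := exists_fam hy hx
  set H := Subgroup.closure S with hH
  have hHG : H ≤ G := (Subgroup.closure_le _).2 hSG
  have hHc : #H < 𝔠 := card_closure S hS
  let L := {c : (ℝ ≃o ℝ) × Bool // c.1 ∈ H}
  have hL : #L < 𝔠 := by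
    refine (mk_le_of_injective (f := fun c : L => ((⟨c.1.1, c.2⟩ : H), c.1.2)) ?_).trans_lt ?_
    · rintro ⟨⟨c1, c2⟩, hc⟩ ⟨⟨d1, d2⟩, hd⟩ h
      simp only [Prod.mk.injEq, Subtype.mk.injEq] at h
      obtain ⟨rfl, rfl⟩ := h
      rfl
    · rw [mk_prod, lift_id, lift_id]
      exact mul_lt_of_lt aleph0_le_continuum hHc
        ((lt_aleph0_of_finite _).trans aleph0_lt_continuum)
  let B : H × List L → Set P := fun t => {r | t.2.map Subtype.val ≠ [] ∧
    Fam.Red (t.2.map Subtype.val) ∧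
    ∀ i, Circle.exp (Φ.ev (t.1.1 (b i)) (t.2.map Subtype.val) r) = Circle.exp (a i)}
  have hB : ∀ t, (B t).Countable := by
    rintro ⟨⟨h0, hh0⟩, ω⟩
    by_cases hω : ω.map Subtype.val ≠ [] ∧ Fam.Red (ω.map Subtype.val)
    · have : ∃ i, Circle.exp (h0 (b i)) ∉ Φ.W := by
        by_contra hcon
        push Not at hcon
        rw [h2] at hcon
        have := Finset.card_le_card_of_injOn (s := Finset.univ)
          (t := (Finset.univ.image fun i => Circle.exp (y i)) ∪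
            (Finset.univ.image fun i => Circle.exp (x i)))
          (fun i => Circle.exp (h0 (b i))) (fun i _ => by simpa using hcon i)
          (fun i _ j _ hij => hb.exp_inj ((exp_iff (hHG hh0)).1 hij))
        have h3 := Finset.card_union_le (Finset.univ.image fun i => Circle.exp (y i))
          (Finset.univ.image fun i => Circle.exp (x i))
        have h4 := Finset.card_image_le (s := Finset.univ) (f := fun i => Circle.exp (y i))
        have h5 := Finset.card_image_le (s := Finset.univ) (f := fun i => Circle.exp (x i))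
        simp only [Finset.card_univ, Fintype.card_fin] at this h4 h5
        omega
      obtain ⟨i, hi⟩ := this
      refine (Φ.core _ hi _ hω.1 (fun c hc => ?_) hω.2 (Circle.exp (a i))).mono
        fun r hr => hr.2.2 i
      obtain ⟨d, -, rfl⟩ := List.mem_map.1 hc
      exact hHG d.2
    · refine Set.countable_empty.mono fun r hr => hω ⟨hr.1, hr.2.1⟩
  have hU : #(⋃ t, B t) < 𝔠 := by
    refine (mk_iUnion_le_sum_mk.trans (sum_le_sum _ (fun _ => ℵ₀)
      fun t => le_aleph0_iff_set_countable.2 (hB t))).trans_lt ?_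
    rw [sum_const', mk_prod, lift_id, lift_id]
    refine mul_lt_of_lt aleph0_le_continuum (mul_lt_of_lt aleph0_le_continuum hHc ?_)
      aleph0_lt_continuum
    exact (mk_list_le_max _).trans_lt (max_lt aleph0_lt_continuum hL)
  have : ∃ r, r ∉ ⋃ t, B t := by
    by_contra hcon
    push Not at hcon
    rw [Set.eq_univ_of_forall hcon] at hU
    simp at hU
  obtain ⟨r, hr⟩ := this
  refine ⟨Φ.g r, Φ.hg r, h1 r, fun f hf hfa => ?_⟩
  have hf' : f ∈ Subgroup.closure (insert (Φ.g r) (H : Set (ℝ ≃o ℝ))) :=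
    Subgroup.closure_mono (Set.insert_subset_insert Subgroup.subset_closure) hf
  obtain ⟨h0, hh0, ω, k1, k2, k3⟩ := Φ.NF_closure H r hf'
  by_cases hω : ω = []
  · subst hω
    exact hI h0 hh0 fun i => by simpa [k3, Fam.ev] using hfa i
  · refine hr (Set.mem_iUnion.2 ⟨(⟨h0, hh0⟩, ω.attachWith _ k1), ?_⟩)
    simp only [B, Set.mem_ofPred_eq, List.attachWith_map_subtype_val]
    exact ⟨hω, k2, fun i => by rw [← k3]; exact hfa i⟩

theorem exists_group {a b : Fin 9 → ℝ} (hb : Cyc b) (hab : Circle.exp (b 0) ≠ Circle.exp (a 0)) :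
    ∃ H : Subgroup (ℝ ≃o ℝ), H ≤ G ∧
      (∀ y x : Fin 4 → ℝ, Cyc y → Cyc x → ∃ f ∈ H, ∀ i, f (y i) = x i) ∧
      ∀ f ∈ H, ¬ ∀ i, Circle.exp (f (b i)) = Circle.exp (a i) := by
  classical
  have hst : ∀ (S : Set (ℝ ≃o ℝ)) (t : (Fin 4 → ℝ) × (Fin 4 → ℝ)), ∃ g ∈ G,
      ((∀ f ∈ S, f ∈ G) → #S < 𝔠 → Inv a b S →
        (Cyc t.1 → Cyc t.2 → ∀ i, g (t.1 i) = t.2 i) ∧ Inv a b (insert g S)) := by
    intro S t
    by_cases h : (∀ f ∈ S, f ∈ G) ∧ #S < 𝔠 ∧ Inv a b S ∧ Cyc t.1 ∧ Cyc t.2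
    · obtain ⟨g, h1, h2, h3⟩ := extend hb S h.1 h.2.1 h.2.2.1 h.2.2.2.1 h.2.2.2.2
      exact ⟨g, h1, fun _ _ _ => ⟨fun _ _ => h2, h3⟩⟩
    · refine ⟨1, G.one_mem, fun h1 h2 h3 => ⟨fun h4 h5 => absurd ⟨h1, h2, h3, h4, h5⟩ h, ?_⟩⟩
      intro f hf
      refine h3 f ((Subgroup.closure_le _).2 ?_ hf)
      exact Set.insert_subset (Subgroup.one_mem _) Subgroup.subset_closure
  choose st st1 st2 using hst
  let O := (𝔠 : Cardinal.{0}).ord.ToType
  obtain ⟨e⟩ : Nonempty (O ≃ ((Fin 4 → ℝ) × (Fin 4 → ℝ))) := by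
    rw [← Cardinal.eq]
    have h4 : (𝔠 : Cardinal.{0}) ^ (4 : Cardinal.{0}) = 𝔠 := by
      exact_mod_cast power_nat_eq (n := 4) aleph0_le_continuum (by norm_num)
    simp [O, Cardinal.mk_real, h4]
  obtain ⟨g, hg⟩ : ∃ g : O → (ℝ ≃o ℝ), ∀ i, g i = st (g '' Set.Iio i) (e i) := by
    refine ⟨(wellFounded_lt (α := O)).fix fun i rec =>
      st (Set.range fun j : Set.Iio i => rec j.1 j.2) (e i), fun i => ?_⟩
    rw [WellFounded.fix_eq, Set.image_eq_range]
  have hG : ∀ i, g i ∈ G := fun i => by rw [hg]; exact st1 _ _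
  have lim : ∀ A : Set O, (∀ j ∈ A, Inv a b (g '' Set.Iic j)) → Inv a b (g '' A) := by
    intro A hA f hf
    have : f = 1 ∨ ∃ j ∈ A, f ∈ Subgroup.closure (g '' Set.Iic j) := by
      induction hf using Subgroup.closure_induction with
      | mem x hx =>
        obtain ⟨j, hj, rfl⟩ := hx
        exact Or.inr ⟨j, hj, Subgroup.subset_closure ⟨j, Set.self_mem_Iic, rfl⟩⟩
      | one => exact Or.inl rfl
      | mul x y _ _ hx hy =>
        rcases hx with rfl | ⟨j, hj, hx⟩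
        · simpa using hy
        rcases hy with rfl | ⟨k, hk, hy⟩
        · exact Or.inr ⟨j, hj, by simpa using hx⟩
        rcases le_total j k with h | h
        · exact Or.inr ⟨k, hk, Subgroup.mul_mem _ (Subgroup.closure_mono
            (Set.image_mono (Set.Iic_subset_Iic.2 h)) hx) hy⟩
        · exact Or.inr ⟨j, hj, Subgroup.mul_mem _ hx (Subgroup.closure_mono
            (Set.image_mono (Set.Iic_subset_Iic.2 h)) hy)⟩
      | inv x _ hx =>
        rcases hx with rfl | ⟨j, hj, hx⟩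
        · exact Or.inl inv_one
        · exact Or.inr ⟨j, hj, Subgroup.inv_mem _ hx⟩
    rcases this with rfl | ⟨j, hj, hf⟩
    · exact fun h => hab (h 0)
    · exact hA j hj f hf
  have stp : ∀ i, Inv a b (g '' Set.Iio i) →
      (Cyc (e i).1 → Cyc (e i).2 → ∀ k, g i ((e i).1 k) = (e i).2 k) ∧
        Inv a b (g '' Set.Iic i) := by
    intro i hi
    have := st2 (g '' Set.Iio i) (e i) (by rintro _ ⟨j, -, rfl⟩; exact hG j)
      (mk_image_le.trans_lt ((mk_Iio_lt i (by simp [O])).trans_eq (by simp [O]))) hi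
    rwa [← hg, ← Set.image_insert_eq, Set.Iio_insert] at this
  have all : ∀ i, Inv a b (g '' Set.Iic i) := by
    intro i
    induction i using WellFoundedLT.induction with
    | ind i ih => exact (stp i (lim _ ih)).2
  refine ⟨Subgroup.closure (g '' Set.univ), (Subgroup.closure_le _).2 ?_, fun y x hy hx => ?_,
    lim _ fun j _ => all j⟩
  · rintro _ ⟨j, -, rfl⟩; exact hG j
  · obtain ⟨i, hi⟩ := e.surjective (y, x)
    have := (stp i (lim _ fun j _ => all j)).1
    rw [hi] at this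
    exact ⟨g i, Subgroup.subset_closure ⟨i, trivial, rfl⟩, this hy hx⟩

end Pool.Agent.H.MP_e2537c_al
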